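import Pool.Agent.U365.POW.E
import Pool.Agent.Results.MP_464c42_nt.HeightWindows

/-!
# C-pairs of general type on the line without integral points with relative height near `s(m)`, `m - φ(m)` or `α m + β f(m)`

Let `K` be a number field, `H_K(x) = exp ([K : ℚ] h(x))`, `S` a finite set of primes of `K` and `Δ = (1 - 1 / m_0) (0)
+ (1 - 1 / m_1) (1) + (1 - 1 / m_2) (∞)` on the projective line with `σ = 1 / m_0 + 1 / m_1 + 1 / m_2 < 1`, `1 ≤ m_i ≤
∞`. Let `s(m)` be the sum of the proper divisors of `m`. Let `G` have steps bounded below by a positive constant and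
growth at most `v ^ d`, for example `G v = v`, `K` a number field, `S` finite, `σ < 1`, `θ ≥ 0` and `e = d min (4 σ /
7) (20 / 37) + θ < 1`. For a set of `m` of lower density at least `1 - e`: the C-pair has NO `S`-integral point `x`
over `K` such that `H_K(x)` differs from `G (s(m))` by at most `s(m) ^ θ`; and the same holds for `m - φ(m)` in place
of `s(m)`. More precisely this holds for almost all `m` with a divisor `≥ m ^ (e + ρ)` which is a prime or the product
of two different primes, and for the values `g = α m + β f(m)` of multiplicative functions with `f p = p + c` at the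
primes, uniformly in `|α|, |β| ≤ N ^ δ` and with a power saving in the number of the exceptional `m`.

Proof. The starting theorem `OrbifoldLines` of this problem bounds the number of the integral points with `H_K(x) ≤ X`
by `X ^ (min (4 σ / 7) (20 / 37) + ε)` (in the form `HeightWindows.count`). Let `m = k v p` with large primes `p ≠ v`.
Then `g = A v p + B (v + p) + B c`, `A = α k + β f(k)`, `B = β c f(k)`, and so `(A v + B) (A p + B) = A g + B² - A B
c`: for given `g`, `k`, `α`, `β` there are only `N^o(1)` possibilities for `p` and `v` (tool `Pool.Agent.U365.POW`).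
-/

set_option autoImplicit false

namespace Pool.Agent.Results.MP_464c42_nt.AliquotValues

open NumberField IsDedekindDomain
open HeightWindows (height recip IsIntegral count)
open Pool.Agent.U365.POW (Values Dens values_set values_mono dens_mono)
open Pool.Agent.N733.TG (Expanding)

/-- there is no `S`-integral point `x` of the C-pair with the orders `q 0, q 1, q 2` at `0, 1, ∞` such that
`|exp ([K : ℚ] h(x)) - G v| ≤ v ^ θ` -/
def Near (K : Type) [Field K] [NumberField K] (S : Finset (HeightOneSpectrum (𝓞 K))) (q : Fin 3 → ℕ∞) (G : ℕ → ℝ) (θ : ℝ)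
    (v : ℕ) : Prop :=
  ∀ x : K, IsIntegral S q x → ¬ |Real.exp ((Module.finrank ℚ K : ℝ) * height x) - G v| ≤ (v : ℝ) ^ θ

lemma s_nonneg (q : Fin 3 → ℕ∞) : 0 ≤ min (4 * (∑ i, recip (q i)) / 7) (20 / 37) := by
  have hσ0 : 0 ≤ ∑ i, recip (q i) := by
    apply Finset.sum_nonneg
    intro i _
    unfold recip
    positivity
  exact le_min (by positivity) (by norm_num)

lemma near_of {K : Type} [Field K] [NumberField K] {S : Finset (HeightOneSpectrum (𝓞 K))} {q : Fin 3 → ℕ∞} {θ : ℝ}
    {G : ℕ → ℝ} {v : ℕ}
    (h : ∀ t ∈ {x : K | IsIntegral S q x}, ¬ |Real.exp ((Module.finrank ℚ K : ℝ) * height t) - G v| ≤ (v : ℝ) ^ θ) :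
    Near K S q G θ v := fun x hx => h x hx

/-- **Theorem.** Let `G` have steps `≥ a > 0` and growth at most `v ^ d`, `K` a number field, `S` finite, `σ < 1`, `θ ≥ 0`
and `e = d min (4 σ / 7) (20 / 37) + θ < 1`. For every `ρ > 0` the property `Near` holds for the values of similar
functions as the aliquot sum (`Values`: for `s(m)`, for `m - φ(m)` and for all `α m + β f(m)`, for almost all the `m`
with a divisor `≥ m ^ (e + ρ)` which is a prime or the product of two different primes), and it holds for `s(m)` and
`m - φ(m)` for a set of `m` of lower density at least `1 - e`. -/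
theorem result : ∀ (G : ℕ → ℝ) (d : ℝ), Expanding G d → ∀ (K : Type) [Field K] [NumberField K] (S : Finset (HeightOneSpectrum (𝓞 K))) (q : Fin 3 → ℕ∞) (θ : ℝ),
    (∀ i, 1 ≤ q i) → ∑ i, recip (q i) < 1 → 0 ≤ θ → d * min (4 * (∑ i, recip (q i)) / 7) (20 / 37) + θ < 1 →
    (∀ ρ : ℝ, 0 < ρ → Values (d * min (4 * (∑ i, recip (q i)) / 7) (20 / 37) + θ + ρ) (Near K S q G θ)) ∧
      Dens (1 - (d * min (4 * (∑ i, recip (q i)) / 7) (20 / 37) + θ)) (Near K S q G θ) := by
  intro G d hG K _ _ S q θ hq hσ hθ h1
  obtain ⟨h2, h3⟩ := values_set {x : K | IsIntegral S q x} (fun x => Real.exp ((Module.finrank ℚ K : ℝ) * height x)) hG (s := min (4 * (∑ i, recip (q i)) / 7) (20 / 37)) (s_nonneg q) hθ h1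
    (count K S q hq hσ)
  have hm : ∀ g : ℕ, (∀ t, |Real.exp ((Module.finrank ℚ K : ℝ) * height t) - G g| ≤ (g : ℝ) ^ θ → t ∉ {x : K | IsIntegral S q x}) → Near K S q G θ g :=
    fun g hg => near_of (fun t ht hw => hg t hw ht)
  exact ⟨fun ρ hρ => values_mono (h2 ρ hρ) hm, dens_mono h3 le_rfl hm⟩

end Pool.Agent.Results.MP_464c42_nt.AliquotValues
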