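import Pool.Agent.U536.CF.F
import Pool.Agent.Results.MP_464c42_nt.HeightWindows

/-!
# C-pairs of general type on the line without integral points with relative height near an integer with a large common factor with a value of `f`

Let `K` be a number field, `H_K(x) = exp ([K : ℚ] h(x))`, `S` a finite set of primes of `K` and `Δ = (1 - 1 / m_0) (0)
+ (1 - 1 / m_1) (1) + (1 - 1 / m_2) (∞)` on the projective line with `σ = 1 / m_0 + 1 / m_1 + 1 / m_2 < 1`, `1 ≤ m_i ≤
∞`. Let `f` be a positive multiplicative function of at most polynomial growth such that `f p ≤ M p` for the large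
primes `p`, with different values at different large primes; for example Euler's function or the sum of the divisors.
Let `G` have steps bounded below by a positive constant and growth at most `v^d`, for example `α v^d`. Let `b < 1` and
`0 ≤ c < 2 b - 1`. For all `m ≤ N` but `N exp (-(log N)^c)`, for EVERY integer `w ≥ exp ((log N)^b)` with `gcd(w,
f(m)) ≥ w^ρ`: the C-pair has NO `S`-integral point `x` over `K` such that `H_K(x)` differs from `G w` by at most `w ^
θ`, if `K` a number field, `S` finite, `σ < 1`, `θ ≥ 0` and `d min (4 σ / 7) (20 / 37) + θ < ρ ≤ 1`. The integers `w`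
include all large divisors of `f(m)` and their multiples by small integers; for Euler's function, the orders of the
elements of the group of units modulo `m`.

Proof. The tool `Pool.Agent.U536.CF` bounds the number of the `m ≤ N` for which such a `w` lies in a given set with a
power saving, by Hölder's inequality for the number of the ordered factorizations. The starting theorem
`OrbifoldLines` of this problem bounds the number of the integral points with `H_K(x) ≤ X` by `X ^ (min (4 σ / 7) (20
/ 37) + ε)` (in the form `HeightWindows.count`).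
-/

set_option autoImplicit false

namespace Pool.Agent.Results.MP_464c42_nt.CommonFactors

open NumberField IsDedekindDomain
open HeightWindows (height recip IsIntegral count)
open Pool.Agent.N733.TG (LM Expanding lm_totient lm_sigma expanding_pow)
open Pool.Agent.U536.CF (Common common_windows common_of_dvd common_order)

/-- there is no `S`-integral point `x` of the C-pair with the orders `q 0, q 1, q 2` at `0, 1, ∞` such that
`|exp ([K : ℚ] h(x)) - G v| ≤ v ^ θ` -/
def Near (K : Type) [Field K] [NumberField K] (S : Finset (HeightOneSpectrum (𝓞 K))) (q : Fin 3 → ℕ∞) (G : ℕ → ℝ) (θ : ℝ)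
    (v : ℕ) : Prop :=
  ∀ x : K, IsIntegral S q x → ¬ |Real.exp ((Module.finrank ℚ K : ℝ) * height x) - G v| ≤ (v : ℝ) ^ θ

lemma s_nonneg (q : Fin 3 → ℕ∞) : 0 ≤ min (4 * (∑ i, recip (q i)) / 7) (20 / 37) := by
  have hσ0 : 0 ≤ ∑ i, recip (q i) := by
    apply Finset.sum_nonneg
    intro i _
    unfold recip
    positivity
  exact le_min (by positivity) (by norm_num)

lemma near_of {K : Type} [Field K] [NumberField K] {S : Finset (HeightOneSpectrum (𝓞 K))} {q : Fin 3 → ℕ∞} {θ : ℝ}
    {G : ℕ → ℝ} {v : ℕ}
    (h : ∀ t ∈ {x : K | IsIntegral S q x}, ¬ |Real.exp ((Module.finrank ℚ K : ℝ) * height t) - G v| ≤ (v : ℝ) ^ θ) :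
    Near K S q G θ v := fun x hx => h x hx

/-- **C-pairs of general type on the line without integral points with relative height near all integers with a large
common factor with a value of a multiplicative function.** Let `f` be multiplicative and positive, of at most
polynomial growth, with `f p ≤ M p` at the large primes, and injective there. Let `G` have steps `≥ a > 0` and growth
at most `v^d`. Let `b < 1` and `0 ≤ c < 2 b - 1`, `K` a number field, `S` finite, `σ < 1`, `θ ≥ 0` and `d min (4 σ /
7) (20 / 37) + θ < ρ ≤ 1`. For all large `N`, for all `m ≤ N` but `N exp (-(log N)^c)`, the property `Near` holds at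
EVERY integer `w ≥ exp ((log N)^b)` with `gcd(w, f(m)) ≥ w^ρ`. All divisors `w ≥ exp ((log N)^b)` of `f(m)` are such
integers `w`, and for Euler's function the orders `≥ exp ((log N)^b)` of the units modulo `m`. Euler's function and
the sum of the divisors are examples of `f`, and `α v^d` with `α > 0`, `d ≥ 1` is an example of `G`. -/
theorem result :
    (∀ f : ℕ → ℕ, LM f → ∀ (G : ℕ → ℝ) (d : ℝ), Expanding G d → ∀ (K : Type) [Field K] [NumberField K] (S : Finset (HeightOneSpectrum (𝓞 K))) (q : Fin 3 → ℕ∞)
      (θ ρ b c : ℝ), (∀ i, 1 ≤ q i) → ∑ i, recip (q i) < 1 → 0 ≤ θ → d * min (4 * (∑ i, recip (q i)) / 7) (20 / 37) + θ < ρ → ρ ≤ 1 → b < 1 → 0 ≤ c → c < 2 * b - 1 →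
      ∃ N₀ : ℕ, ∀ N : ℕ, N₀ ≤ N →
        ({m : ℕ | 1 ≤ m ∧ m ≤ N ∧ ¬ ∀ w : ℕ, Common f b ρ N m w → Near K S q G θ w}.ncard : ℝ) ≤
          N * Real.exp (-(Real.log N ^ c))) ∧
    (LM Nat.totient ∧ LM (fun m => ∑ d ∈ m.divisors, d)) ∧
    (∀ α d : ℝ, 0 < α → 1 ≤ d → Expanding (fun v => α * (v : ℝ) ^ d) d) ∧
    (∀ (f : ℕ → ℕ) (b ρ : ℝ) (N m w : ℕ), ρ ≤ 1 → Real.exp (Real.log N ^ b) ≤ (w : ℝ) → w ∣ f m → Common f b ρ N m w) ∧
    ∀ (b ρ : ℝ) (N m : ℕ), ρ ≤ 1 → ∀ x : (ZMod m)ˣ, Real.exp (Real.log N ^ b) ≤ (orderOf x : ℝ) →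
      Common Nat.totient b ρ N m (orderOf x) := by
  refine ⟨?_, ⟨lm_totient, lm_sigma⟩, fun α d hα hd => expanding_pow hα hd, fun f b ρ N m w hρ hw hd => common_of_dvd hρ hw hd,
    fun b ρ N m hρ x hx => common_order hρ x hx⟩
  intro f hf G d hG K _ _ S q θ ρ b c hq hσ hθ h1 hρ hb hc hcb
  obtain ⟨N₀, hN₀⟩ := common_windows {x : K | IsIntegral S q x} (fun x => Real.exp ((Module.finrank ℚ K : ℝ) * height x)) hf hG (s := min (4 * (∑ i, recip (q i)) / 7) (20 / 37)) (s_nonneg q) hθ h1 hρ hb hc hcb
    (count K S q hq hσ)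
  refine ⟨N₀, fun N hN => le_trans (Nat.cast_le.2 (Set.ncard_le_ncard ?_ ?_)) (hN₀ N hN)⟩
  · rintro m ⟨h2, h3, h4⟩
    push Not at h4
    obtain ⟨w, hw, h5⟩ := h4
    refine ⟨h2, h3, w, hw, ?_⟩
    by_contra hcon
    push Not at hcon
    exact h5 (near_of (fun t ht => not_le.2 (hcon t ht)))
  · exact (Set.finite_Icc 1 N).subset fun m hm => ⟨hm.1, hm.2.1⟩

end Pool.Agent.Results.MP_464c42_nt.CommonFactors
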