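import Mathlib
import Pool.Agent.U580.TT.Fin
import Pool.Agent.U580.TT.Full

/-!
# Campana points of random C-pairs

`X ⊆ ℙ^n` is given by `F_1 = … = F_s = 0`, `deg F_i = d_i` (`s = 0` is allowed: `X = ℙ^n`), and the
boundary is `Δ = ∑_{j ≤ r} (1 - 1/m_j) D_j`, `D_j = {G_j = 0}`, `deg G_j = e_j`, with multiplicities
`m_j ∈ {2, 3, …} ∪ {∞}` (`r = 0` is allowed: `Δ = 0`; all `m_j = ∞`: integral points). If `X` is a smooth
complete intersection, then `K_X + Δ` has degree

  `κ = ∑ d_i + ∑ (1 - 1/m_j) e_j - n - 1`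

with respect to `O(1)`, and the pair is of general type if and only if `κ > 0`. A rational point with
coprime coordinates `x` is a Campana point (over `ℤ`, with respect to the model given by the equations)
if every prime which divides `G_j(x) ≠ 0` divides it at least `m_j` times.

For random integral forms `F_i`, `G_j` with coefficients in `[-H, H]` and `κ > 0` the probability that
there is a Campana point of height between `T` and `B` is at most
`C max(1, B/H) ^ (∑ d_i + ∑ e_j) H ^ (-σ) T ^ (-κ)`, `σ = s + ∑ (1 - 1/m_j)`, and at least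
`c H ^ (-σ) T ^ (-κ)` if `B ≥ 2 T` and `H ≥ C T ^ P`: the degree of `K_X + Δ` is the exact exponent of
the tail of the height of the Campana points, for all C-pairs of general type, with all multiplicities.

The proof works for forms with values in arbitrary thin sets (`Pool.Agent.U580.TT`): a union bound, a
box principle for the sum sets, and a second moment over the pairs of points. The number of forms with
a given value at a point is from the starting library (`Pool.Agent.R870.RC`).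
-/

set_option autoImplicit false

namespace Pool.Agent.Results.MP_464c42_nt.RandomCPairs

open MvPolynomial

/-- the forms of degree `d` in `n + 1` variables with integer coefficients of absolute value at most
`H` -/
def Forms (n d H : ℕ) : Set (MvPolynomial (Fin (n + 1)) ℤ) :=
  {F | F.IsHomogeneous d ∧ ∀ m, |F.coeff m| ≤ (H : ℤ)}

/-- the equations `(F_1, …, F_s)` and the boundary forms `(G_1, …, G_r)` with coefficients in
`[-H, H]` -/
def Pairs (n : ℕ) {s r : ℕ} (d : Fin s → ℕ) (e : Fin r → ℕ) (H : ℕ) :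
    Set ((Fin s → MvPolynomial (Fin (n + 1)) ℤ) × (Fin r → MvPolynomial (Fin (n + 1)) ℤ)) :=
  {P | (∀ i, P.1 i ∈ Forms n (d i) H) ∧ ∀ j, P.2 j ∈ Forms n (e j) H}

/-- the coordinates of `x` are coprime: `x` represents a rational point of `ℙ^n`, and each rational
point has exactly two such representatives, `x` and `-x` -/
def IsPoint {n : ℕ} (x : Fin (n + 1) → ℤ) : Prop := ∀ p : ℕ, p.Prime → ∃ j, ¬ (p : ℤ) ∣ x j

/-- the height `max |x j|` of a rational point -/
def height {n : ℕ} (x : Fin (n + 1) → ℤ) : ℕ := Finset.univ.sup fun j => (x j).natAbs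

/-- the local condition for the multiplicity `m`: `t ≠ 0`, and every prime which divides `t` divides it
at least `m` times; `m = 0` stands for `m = ∞`: no prime divides `t` -/
def MultiplicityAtLeast (m : ℕ) (t : ℤ) : Prop :=
  t ≠ 0 ∧ ∀ p : ℕ, p.Prime → (p : ℤ) ∣ t → m ≠ 0 ∧ (p : ℤ) ^ m ∣ t

/-- the coefficient `1 - 1/m` of a boundary component; `m = 0` stands for `m = ∞` and has the
coefficient `1` -/
noncomputable def coefficient (m : ℕ) : ℝ := if m = 0 then 1 else 1 - 1 / (m : ℝ)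

/-- `x` is a Campana point of the C-pair given by `P` and the multiplicities `m` -/
def IsCampanaPoint {n s r : ℕ} (m : Fin r → ℕ)
    (P : (Fin s → MvPolynomial (Fin (n + 1)) ℤ) × (Fin r → MvPolynomial (Fin (n + 1)) ℤ))
    (x : Fin (n + 1) → ℤ) : Prop :=
  IsPoint x ∧ (∀ i, eval x (P.1 i) = 0) ∧ ∀ j, MultiplicityAtLeast (m j) (eval x (P.2 j))

/-- the pairs which have a Campana point of height between `T` and `B` -/
def WithCampanaPoint (n : ℕ) {s r : ℕ} (d : Fin s → ℕ) (e : Fin r → ℕ) (m : Fin r → ℕ)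
    (H T B : ℕ) :
    Set ((Fin s → MvPolynomial (Fin (n + 1)) ℤ) × (Fin r → MvPolynomial (Fin (n + 1)) ℤ)) :=
  {P | P ∈ Pairs n d e H ∧ ∃ x : Fin (n + 1) → ℤ, IsCampanaPoint m P x ∧ T ≤ height x ∧ height x ≤ B}

/-- the probability that a random pair has a Campana point of height between `T` and `B` -/
noncomputable def probability (n : ℕ) {s r : ℕ} (d : Fin s → ℕ) (e : Fin r → ℕ) (m : Fin r → ℕ)
    (H T B : ℕ) : ℝ :=
  ((WithCampanaPoint n d e m H T B).ncard : ℝ) / ((Pairs n d e H).ncard : ℝ)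

/-- the degree of `K_X + Δ`: `∑ d_i + ∑ (1 - 1/m_j) e_j - n - 1` -/
noncomputable def canonicalDegree (n : ℕ) {s r : ℕ} (d : Fin s → ℕ) (e : Fin r → ℕ)
    (m : Fin r → ℕ) : ℝ :=
  (∑ i, (d i : ℝ)) + (∑ j, coefficient (m j) * e j) - n - 1

/-- the number of conditions, `s + ∑ (1 - 1/m_j)` -/
noncomputable def conditions (s : ℕ) {r : ℕ} (m : Fin r → ℕ) : ℝ := s + ∑ j, coefficient (m j)

/-- the sets of admitted values -/
def Tgt (s : ℕ) {r : ℕ} (m : Fin r → ℕ) : Fin (s + r) → Set ℤ :=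
  Fin.append (fun _ : Fin s => ({0} : Set ℤ)) fun j => {t | Pool.Agent.U580.TT.IsFull (m j) t}

/-- their exponents -/
noncomputable def expo (s : ℕ) {r : ℕ} (m : Fin r → ℕ) : Fin (s + r) → ℝ :=
  Fin.append (fun _ : Fin s => (0 : ℝ)) fun j => 1 / (m j : ℝ)

theorem thin_tgt (s : ℕ) {r : ℕ} (m : Fin r → ℕ) (hm : ∀ j, m j ≠ 1) (i : Fin (s + r)) :
    Pool.Agent.U580.TT.Thin (Tgt s m i) (expo s m i) := by
  refine Fin.addCases (fun i => ?_) (fun j => ?_) i
  · unfold Tgt expo
    rw [Fin.append_left, Fin.append_left]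
    exact Pool.Agent.U580.TT.thin_zero
  · unfold Tgt expo
    rw [Fin.append_right, Fin.append_right]
    exact Pool.Agent.U580.TT.thin_full (hm j)

theorem coefficient_eq (m : ℕ) : coefficient m = 1 - 1 / (m : ℝ) := by
  unfold coefficient
  split_ifs with h
  · rw [h]
    simp
  · rfl

theorem sg_eq (s : ℕ) {r : ℕ} (m : Fin r → ℕ) :
    Pool.Agent.U580.TT.sg (expo s m) = conditions s m := by
  unfold Pool.Agent.U580.TT.sg conditions expo
  rw [Fin.sum_univ_add]
  congr 1
  · rw [Finset.sum_congr rfl (g := fun _ : Fin s => (1 : ℝ)) (fun i _ => by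
      rw [Fin.append_left, sub_zero])]
    simp
  · exact Finset.sum_congr rfl fun j _ => by rw [Fin.append_right, coefficient_eq]

theorem wd_eq (n : ℕ) {s r : ℕ} (d : Fin s → ℕ) (e : Fin r → ℕ) (m : Fin r → ℕ) :
    Pool.Agent.U580.TT.wd (Fin.append d e) (expo s m) - ((n : ℝ) + 1) = canonicalDegree n d e m := by
  unfold Pool.Agent.U580.TT.wd canonicalDegree expo
  rw [Fin.sum_univ_add]
  have h1 : ∑ i : Fin s, ((Fin.append d e (Fin.castAdd r i) : ℕ) : ℝ) *
      (1 - Fin.append (fun _ : Fin s => (0 : ℝ)) (fun j => 1 / (m j : ℝ)) (Fin.castAdd r i)) =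
      ∑ i, (d i : ℝ) := Finset.sum_congr rfl fun i _ => by
    rw [Fin.append_left, Fin.append_left, sub_zero, mul_one]
  have h2 : ∑ j : Fin r, ((Fin.append d e (Fin.natAdd s j) : ℕ) : ℝ) *
      (1 - Fin.append (fun _ : Fin s => (0 : ℝ)) (fun j => 1 / (m j : ℝ)) (Fin.natAdd s j)) =
      ∑ j, coefficient (m j) * e j := Finset.sum_congr rfl fun j _ => by
    rw [Fin.append_right, Fin.append_right, coefficient_eq, mul_comm]
  rw [h1, h2]
  ring

theorem sum_append {s r : ℕ} (d : Fin s → ℕ) (e : Fin r → ℕ) :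
    ∑ i, Fin.append d e i = ∑ i, d i + ∑ j, e j := by
  rw [Fin.sum_univ_add]
  congr 1
  · exact Finset.sum_congr rfl fun i _ => Fin.append_left _ _ _
  · exact Finset.sum_congr rfl fun i _ => Fin.append_right _ _ _

/-- a pair as one system -/
def glue (n s r : ℕ) : ((Fin s → MvPolynomial (Fin (n + 1)) ℤ) × (Fin r → MvPolynomial (Fin (n + 1)) ℤ)) ≃
    (Fin (s + r) → MvPolynomial (Fin (n + 1)) ℤ) := Fin.appendEquiv s r

theorem forall_add {s r : ℕ} (p : Fin (s + r) → Prop) :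
    (∀ i, p i) ↔ (∀ i, p (Fin.castAdd r i)) ∧ ∀ j, p (Fin.natAdd s j) :=
  ⟨fun h => ⟨fun i => h _, fun j => h _⟩, fun h i => Fin.addCases h.1 h.2 i⟩

theorem glue_left {n s r : ℕ} (P : (Fin s → MvPolynomial (Fin (n + 1)) ℤ) ×
    (Fin r → MvPolynomial (Fin (n + 1)) ℤ)) (i : Fin s) : glue n s r P (Fin.castAdd r i) = P.1 i :=
  Fin.append_left _ _ _

theorem glue_right {n s r : ℕ} (P : (Fin s → MvPolynomial (Fin (n + 1)) ℤ) ×
    (Fin r → MvPolynomial (Fin (n + 1)) ℤ)) (j : Fin r) : glue n s r P (Fin.natAdd s j) = P.2 j :=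
  Fin.append_right _ _ _

theorem mem_pairs_iff {n s r : ℕ} (d : Fin s → ℕ) (e : Fin r → ℕ) (H : ℕ)
    (P : (Fin s → MvPolynomial (Fin (n + 1)) ℤ) × (Fin r → MvPolynomial (Fin (n + 1)) ℤ)) :
    P ∈ Pairs n d e H ↔ glue n s r P ∈ Pool.Agent.R870.RC.Systems n (Fin.append d e) H := by
  show _ ↔ ∀ i, glue n s r P i ∈ Pool.Agent.R870.RC.Forms n (Fin.append d e i) H
  rw [forall_add]
  refine and_congr (forall_congr' fun i => ?_) (forall_congr' fun j => ?_)
  · rw [glue_left, Fin.append_left]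
    rfl
  · rw [glue_right, Fin.append_right]
    rfl

theorem mem_with_iff {n s r : ℕ} (d : Fin s → ℕ) (e m : Fin r → ℕ) (H T B : ℕ)
    (P : (Fin s → MvPolynomial (Fin (n + 1)) ℤ) × (Fin r → MvPolynomial (Fin (n + 1)) ℤ)) :
    P ∈ WithCampanaPoint n d e m H T B ↔
      glue n s r P ∈ Pool.Agent.U580.TT.WV n (Fin.append d e) (Tgt s m) H T B := by
  have key : ∀ x : Fin (n + 1) → ℤ, (∀ i, eval x (glue n s r P i) ∈ Tgt s m i) ↔
      (∀ i, eval x (P.1 i) = 0) ∧ ∀ j, MultiplicityAtLeast (m j) (eval x (P.2 j)) := by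
    intro x
    rw [forall_add]
    refine and_congr (forall_congr' fun i => ?_) (forall_congr' fun j => ?_)
    · unfold Tgt
      rw [glue_left, Fin.append_left, Set.mem_singleton_iff]
    · unfold Tgt
      rw [glue_right, Fin.append_right]
      rfl
  show P ∈ Pairs n d e H ∧ _ ↔ glue n s r P ∈ Pool.Agent.R870.RC.Systems n (Fin.append d e) H ∧ _
  refine and_congr (mem_pairs_iff d e H P) (exists_congr fun x => ?_)
  constructor
  · rintro ⟨⟨h1, h2⟩, h3, h4⟩
    exact ⟨h1, h3, h4, (key x).2 h2⟩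
  · rintro ⟨h1, h3, h4, h2⟩
    exact ⟨⟨h1, (key x).1 h2⟩, h3, h4⟩

theorem ncard_glue {α β : Type*} (f : α ≃ β) (A : Set α) (A' : Set β) (h : ∀ P, P ∈ A ↔ f P ∈ A') :
    A.ncard = A'.ncard := by
  have h1 : A' = f '' A := by
    ext Q
    rw [Set.mem_image]
    constructor
    · intro hQ
      exact ⟨f.symm Q, (h _).2 (by rw [Equiv.apply_symm_apply]; exact hQ), Equiv.apply_symm_apply _ _⟩
    · rintro ⟨P, hP, rfl⟩
      exact (h P).1 hP
  rw [h1, Set.ncard_image_of_injective _ f.injective]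

theorem systems_card (n : ℕ) {s : ℕ} (d : Fin s → ℕ) (H : ℕ) :
    (Pool.Agent.R870.RC.Systems n d H).Finite ∧ (Pool.Agent.R870.RC.Systems n d H).ncard =
      ∏ i, (Pool.Agent.R870.RC.FF n (d i) H).card := by
  classical
  have h : Pool.Agent.R870.RC.Systems n d H =
      ((Fintype.piFinset fun i => Pool.Agent.R870.RC.FF n (d i) H :
        Finset (Fin s → MvPolynomial (Fin (n + 1)) ℤ)) : Set _) := by
    ext F
    rw [Finset.mem_coe, Fintype.mem_piFinset]
    exact forall_congr' fun i => (Pool.Agent.R870.RC.mem_FF _).symm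
  rw [h]
  exact ⟨Finset.finite_toSet _, by rw [Set.ncard_coe_finset, Fintype.card_piFinset]⟩

/-- **Campana points of random C-pairs.** Let `n ≥ 1`, `d_i ≥ 1`, `e_j ≥ 1`,
`m_j ∈ {2, 3, …} ∪ {∞}` (`0` stands for `∞`), `κ = ∑ d_i + ∑ (1 - 1/m_j) e_j - n - 1 > 0` and
`σ = s + ∑ (1 - 1/m_j)`. There are `c, C, P > 0` such that for all `H, T ≥ 1` and all `B`
(1) the probability of a Campana point of height between `T` and `B` is at most
`C max(1, B/H) ^ (∑ d_i + ∑ e_j) H ^ (-σ) T ^ (-κ)`;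
(2) it is at least `c H ^ (-σ) T ^ (-κ)` if `B ≥ 2 T` and `H ≥ C T ^ P`. -/
theorem result (n s r : ℕ) (hn : 1 ≤ n) (d : Fin s → ℕ) (hd : ∀ i, 1 ≤ d i) (e : Fin r → ℕ)
    (he : ∀ j, 1 ≤ e j) (m : Fin r → ℕ) (hm : ∀ j, m j ≠ 1) (hκ : 0 < canonicalDegree n d e m) :
    ∃ c C P : ℝ, 0 < c ∧ 0 < C ∧ 0 < P ∧ ∀ H : ℕ, 1 ≤ H →
      (Pairs n d e H).Finite ∧ (Pairs n d e H).Nonempty ∧ ∀ T B : ℕ, 1 ≤ T →
      probability n d e m H T B ≤ C * (max 1 ((B : ℝ) / H)) ^ (∑ i, d i + ∑ j, e j) *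
        ((H : ℝ) ^ (-conditions s m) * (T : ℝ) ^ (-canonicalDegree n d e m)) ∧
      (2 * T ≤ B → C * (T : ℝ) ^ P ≤ H →
        c * ((H : ℝ) ^ (-conditions s m) * (T : ℝ) ^ (-canonicalDegree n d e m)) ≤
          probability n d e m H T B) := by
  classical
  obtain ⟨k, rfl⟩ : ∃ k, n = k + 1 := ⟨n - 1, by omega⟩
  have hD : ∀ i, 1 ≤ Fin.append d e i := fun i => by
    refine Fin.addCases (fun i => ?_) (fun j => ?_) i
    · rw [Fin.append_left]; exact hd i
    · rw [Fin.append_right]; exact he j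
  have hW := thin_tgt s m hm
  have hwd := wd_eq (k + 1) d e m
  have hsr : 1 ≤ s + r := by
    by_contra h0
    have hs0 : s = 0 := by omega
    have hr0 : r = 0 := by omega
    subst hs0
    subst hr0
    unfold canonicalDegree at hκ
    simp only [Finset.univ_eq_empty, Finset.sum_empty] at hκ
    have : (0 : ℝ) ≤ ((k + 1 : ℕ) : ℝ) := Nat.cast_nonneg _
    linarith
  obtain ⟨K, hK, hup⟩ := Pool.Agent.U580.TT.up_wv (n := k + 1) (Fin.append d e) hW (by linarith)
  obtain ⟨c, C, P, hc, hC, hP, hlow⟩ := Pool.Agent.U580.TT.low_wv k hsr (Fin.append d e) hD hW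
  refine ⟨c, C + K, P, hc, by positivity, hP, fun H hH => ?_⟩
  have hHr : (0 : ℝ) < H := by exact_mod_cast hH
  obtain ⟨hfin, hcard⟩ := systems_card (k + 1) (Fin.append d e) H
  have hcard' : (Pairs (k + 1) d e H).ncard =
      ∏ i, (Pool.Agent.R870.RC.FF (k + 1) (Fin.append d e i) H).card := by
    rw [ncard_glue (glue (k + 1) s r) _ _ (mem_pairs_iff d e H), hcard]
  have hpos : 0 < (Pairs (k + 1) d e H).ncard := by
    rw [hcard']
    refine Finset.prod_pos fun i _ => ?_
    rw [Pool.Agent.R870.RC.card_FF]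
    positivity
  have hposr : (0 : ℝ) < ((Pairs (k + 1) d e H).ncard : ℝ) := by exact_mod_cast hpos
  have hcardr : ((Pairs (k + 1) d e H).ncard : ℝ) =
      ∏ i, ((Pool.Agent.R870.RC.FF (k + 1) (Fin.append d e i) H).card : ℝ) := by
    rw [hcard']
    push_cast
    rfl
  refine ⟨Set.finite_of_ncard_pos hpos, Set.nonempty_of_ncard_ne_zero hpos.ne', fun T B hT => ⟨?_, ?_⟩⟩
  · have hTr : (0 : ℝ) < T := by exact_mod_cast hT
    unfold probability
    rw [div_le_iff₀ hposr, ncard_glue (glue (k + 1) s r) _ _ (mem_with_iff d e m H T B)]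
    have h1 := hup H T B hH hT
    rw [← hcardr, sg_eq, sum_append, hwd] at h1
    refine h1.trans (mul_le_mul_of_nonneg_right ?_ hposr.le)
    have hmm : Pool.Agent.U580.VP.mm H B = max 1 ((B : ℝ) / H) := rfl
    rw [hmm]
    have hm0 : (0 : ℝ) ≤ max 1 ((B : ℝ) / H) := zero_le_one.trans (le_max_left _ _)
    obtain ⟨u, hu⟩ : ∃ u : ℝ, u = (max 1 ((B : ℝ) / H)) ^ (∑ i, d i + ∑ j, e j) := ⟨_, rfl⟩
    have hu0 : 0 ≤ u := by rw [hu]; positivity
    obtain ⟨v, hv⟩ : ∃ v : ℝ, v = (H : ℝ) ^ (-conditions s m) *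
      (T : ℝ) ^ (-canonicalDegree (k + 1) d e m) := ⟨_, rfl⟩
    have hv0 : 0 ≤ v := by rw [hv]; positivity
    rw [← hu, ← hv, ← mul_assoc]
    refine mul_le_mul_of_nonneg_right (mul_le_mul_of_nonneg_right (by linarith) hu0) hv0
  · intro h2 h3
    have hTr : (0 : ℝ) < T := by exact_mod_cast hT
    unfold probability
    rw [le_div_iff₀ hposr, ncard_glue (glue (k + 1) s r) _ _ (mem_with_iff d e m H T B)]
    have h5 : C * (T : ℝ) ^ P ≤ H := by
      refine le_trans (mul_le_mul_of_nonneg_right ?_ (by positivity)) h3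
      linarith
    have h6 := hlow H T hH hT h5
    rw [← hcardr, sg_eq, hwd] at h6
    refine h6.trans ?_
    have h7 : Pool.Agent.U580.TT.WV (k + 1) (Fin.append d e) (Tgt s m) H T (2 * T) ⊆
        Pool.Agent.U580.TT.WV (k + 1) (Fin.append d e) (Tgt s m) H T B := by
      rintro F ⟨a1, x, a3, a4, a5, a6⟩
      exact ⟨a1, x, a3, a4, a5.trans h2, a6⟩
    exact_mod_cast Set.ncard_le_ncard h7
      (Pool.Agent.U580.TT.fin_wv (Fin.append d e) (Tgt s m) H T B)

end Pool.Agent.Results.MP_464c42_nt.RandomCPairs
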