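import Pool.Agent.U405.RS.F2
import Pool.Agent.Results.MP_464c42_nt.HeightWindows

/-!
# C-pairs of general type on the line without integral points with relative height near a value of `f` at thin sets of arguments

Let `K` be a number field, `H_K(x) = exp ([K : ℚ] h(x))`, `S` a finite set of primes of `K` and `Δ = (1 - 1 / m_0) (0)
+ (1 - 1 / m_1) (1) + (1 - 1 / m_2) (∞)` on the projective line with `σ = 1 / m_0 + 1 / m_1 + 1 / m_2 < 1`, `1 ≤ m_i ≤
∞`. Let `f` be a positive multiplicative function of at most polynomial growth which for each `a ≥ 1` is injective at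
the powers `p ^ a` of the large primes and at most `M p ^ a` there; for example Euler's function or the sum of the
divisors. Let `G` have steps bounded below by a positive constant and growth at most `v ^ d`, for example `α v ^ d`
with `α > 0` and `d ≥ 1`. Let `θ ≥ 0` and `e = d min (4 σ / 7) (20 / 37) + θ`. the C-pair has NO `S`-integral point
`x` over `K` such that `H_K(x)` differs from `G (f v)` by at most `(f v) ^ θ`, for almost all `v` (with a saving of
any power of the logarithm) in each of these sets:

* the values of any integer polynomial without repeated roots, of degree `< 1 / e`;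
* the shifted primes `p + a`, `a` any integer, if `e < 1`;
* the intervals `(x, x + y]`, `x^τ ≤ y ≤ x`, for every `τ > e`, `τ ≤ 1`.

Proof. The tool `Pool.Agent.U405.RS` (weighted Rankin method) shows that the values of `f` at almost all elements of
these sets avoid every set with a power saving. The starting theorem `OrbifoldLines` of this problem bounds the number
of the integral points with `H_K(x) ≤ X` by `X ^ (min (4 σ / 7) (20 / 37) + ε)` (in the form `HeightWindows.count`).
-/

set_option autoImplicit false

namespace Pool.Agent.Results.MP_464c42_nt.SparseArguments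

open NumberField IsDedekindDomain
open HeightWindows (height recip IsIntegral count)
open Pool.Agent.N733.TG (Expanding expanding_pow)
open Pool.Agent.U405.RS (PM Sparse sparse_set' examples)

/-- there is no `S`-integral point `x` of the C-pair with the orders `q 0, q 1, q 2` at `0, 1, ∞` such that
`|exp ([K : ℚ] h(x)) - G v| ≤ v ^ θ` -/
def Near (K : Type) [Field K] [NumberField K] (S : Finset (HeightOneSpectrum (𝓞 K))) (q : Fin 3 → ℕ∞) (G : ℕ → ℝ) (θ : ℝ)
    (v : ℕ) : Prop :=
  ∀ x : K, IsIntegral S q x → ¬ |Real.exp ((Module.finrank ℚ K : ℝ) * height x) - G v| ≤ (v : ℝ) ^ θ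

lemma s_nonneg (q : Fin 3 → ℕ∞) : 0 ≤ min (4 * (∑ i, recip (q i)) / 7) (20 / 37) := by
  have hσ0 : 0 ≤ ∑ i, recip (q i) := by
    apply Finset.sum_nonneg
    intro i _
    unfold recip
    positivity
  exact le_min (by positivity) (by norm_num)

lemma near_of {K : Type} [Field K] [NumberField K] {S : Finset (HeightOneSpectrum (𝓞 K))} {q : Fin 3 → ℕ∞} {θ : ℝ}
    {G : ℕ → ℝ} {v : ℕ}
    (h : ∀ t ∈ {x : K | IsIntegral S q x}, ¬ |Real.exp ((Module.finrank ℚ K : ℝ) * height t) - G v| ≤ (v : ℝ) ^ θ) :
    Near K S q G θ v := fun x hx => h x hx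

/-- **C-pairs of general type on the line without integral points with relative height near the values of `f` at thin sets
of arguments.** Let `f` be in the class `PM`, let `G` have steps `≥ const > 0` and growth at most `v ^ d`, `K` a
number field, `S` finite, `σ < 1`, `θ ≥ 0`. For every `U` the property `Near` holds in the sense `Sparse e f`, `e = d
min (4 σ / 7) (20 / 37) + θ`: with a saving of `(log x)^U` it holds at `f v` for almost all `v` among the positive
values of every integer polynomial without repeated roots of degree `< 1 / e`; among the shifted primes `p + a` for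
every `a`, if `e < 1`; and in all intervals `(x, x + y]`, `x^τ ≤ y ≤ x`, `e < τ ≤ 1`. Euler's function, the sum of the
divisors and the identity are in the class, and `α v^d` with `α > 0`, `d ≥ 1` is an example of `G`. -/
theorem result :
    (∀ f : ℕ → ℕ, PM f → ∀ (G : ℕ → ℝ) (d : ℝ), Expanding G d → ∀ (K : Type) [Field K] [NumberField K] (S : Finset (HeightOneSpectrum (𝓞 K))) (q : Fin 3 → ℕ∞) (θ : ℝ),
      (∀ i, 1 ≤ q i) → ∑ i, recip (q i) < 1 → 0 ≤ θ → ∀ U : ℕ, Sparse (d * min (4 * (∑ i, recip (q i)) / 7) (20 / 37) + θ) f (Near K S q G θ) U) ∧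
    (PM Nat.totient ∧ PM (fun m => ∑ d ∈ m.divisors, d) ∧ PM (fun m => m)) ∧
    ∀ α d : ℝ, 0 < α → 1 ≤ d → Expanding (fun v => α * (v : ℝ) ^ d) d := by
  refine ⟨?_, examples, fun α d hα hd => expanding_pow hα hd⟩
  intro f hf G d hG K _ _ S q θ hq hσ hθ U
  exact sparse_set' {x : K | IsIntegral S q x} (fun x => Real.exp ((Module.finrank ℚ K : ℝ) * height x)) hf hG (s := min (4 * (∑ i, recip (q i)) / 7) (20 / 37)) (s_nonneg q) hθ rfl
    (count K S q hq hσ) _ U (fun v hv => near_of hv)

end Pool.Agent.Results.MP_464c42_nt.SparseArguments
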